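import Pool.Agent.H276R3.Hard

/-!
# Recognising the `j`-th generalised median stable matching

`JGM` is the problem of deciding, for a stable marriage instance, a stable matching `M` of it and a
number `j` between `1` and the number of stable matchings, whether `M` is the `j`-th generalised
median stable matching. It belongs to `PP`, and it belongs to `NP` if and only if `NP = PP`; the
latter already follows if some language in `NP` gives the right answers on the legal inputs.
-/

namespace Pool.Agent.Results.MP_89948a_lc.GivenIndexPP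

open Pool.Agent.NPC Pool.Agent.NPC.Med Pool.Agent.H276R3

theorem result :
    InPPc (lang JGM) ∧
    (InNP (lang JGM) ↔ ∀ L : Set (List Bool), InPPc L ↔ InNP L) ∧
    ((∃ A : Set (List Bool), InNP A ∧ ∀ x, JGMInput x → (bits x ∈ A ↔ JGM x)) ↔
      ∀ L : Set (List Bool), InPPc L ↔ InNP L) := by
  refine ⟨G276.JGM_inPP, ?_, ?_, ?_⟩
  · rw [G276.JGM_iff_pp]
    exact ⟨fun h L => ⟨h L, G276.np_sub_pp⟩, fun h L => (h L).1⟩
  · rintro ⟨A, hA, hJ⟩ L
    exact ⟨G276.JGM_hard hA hJ, G276.np_sub_pp⟩
  · intro h
    exact ⟨lang JGM, G276.JGM_iff_pp.2 fun L => (h L).1, fun x _ => bits_mem_lang⟩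

end Pool.Agent.Results.MP_89948a_lc.GivenIndexPP
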